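import Mathlib
import Pool.Agent.helper60.DB.SpecM

set_option autoImplicit false

namespace Pool.Agent.helper60.DB

open Polynomial

theorem LP (h1 : M1_stmt) (hA : MA_stmt) (hU : MU_stmt) (hP : MP_stmt) (hTA : TA_stmt) (hTP : TP_stmt)
    (hHU : HU_stmt) (hHE : HE_stmt) (hPL : PL_stmt) (hQ1 : Q1_stmt) : LP_stmt := by
  intro K _ _ A B β N ε y hY hB hAB hN hβ hOp
  -- existence of pairs
  let P : K → ℤ → Prop := fun α e => ∃ g u : PowerSeries K, Ml A B y α g u ∧ Ty y e g u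
  have P0 : P 0 0 := ⟨0, 1, (h1 K A B 0 y 0 1).2.1, (hTP K A B y 0 1 0 hY).2.2.1⟩
  have P1 : P 1 1 := ⟨1, y, (h1 K A B 1 y 1 y).1 hY, (hTP K A B y 1 y 1 hY).2.1⟩
  have Pneg : ∀ α e, P α e → P (-α) (-e) := by
    rintro α e ⟨g, u, hm, ht⟩
    refine ⟨-g, u, (h1 K A B α y g u).2.2 hm, ?_⟩
    have ht1 := (hTP K A B y g u e hY).2.2.2.1 ht
    exact (hTP K A B y (-g) u e hY).2.2.2.2 (-e) (by rw [sub_neg_eq_add]; exact ⟨e, rfl⟩) ht1
  have Padd : ∀ α₁ e₁ α₂ e₂, P α₁ e₁ → P α₂ e₂ → P (α₁ + α₂) (e₁ + e₂) := by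
    rintro α₁ e₁ α₂ e₂ ⟨g₁, u₁, hm₁, ht₁⟩ ⟨g₂, u₂, hm₂, ht₂⟩
    obtain ⟨g₃, u₃, hm₃, hf1, hf2⟩ := hA K A B α₁ α₂ y g₁ u₁ g₂ u₂ hm₁ hm₂
    exact ⟨g₃, u₃, hm₃, hTA K A B B A y g₁ u₁ g₂ u₂ g₃ u₃ e₁ e₂ hY hm₁.cu hm₂.cu ht₁ ht₂ hf1 hf2⟩
  have Pnat : ∀ α e, P α e → ∀ n : ℕ, P ((n : K) * α) ((n : ℤ) * e) := by
    intro α e h n
    induction n with
    | zero => simpa using P0
    | succ n ih =>
      have := Padd _ _ _ _ ih h
      rw [show ((n + 1 : ℕ) : K) * α = (n : K) * α + α by push_cast; ring,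
        show ((n + 1 : ℕ) : ℤ) * e = (n : ℤ) * e + e by push_cast; ring]
      exact this
  have Pint : ∀ α e, P α e → ∀ n : ℤ, P ((n : K) * α) (n * e) := by
    intro α e h n
    rcases Int.eq_nat_or_neg n with ⟨m, rfl | rfl⟩
    · simpa using Pnat α e h m
    · have := Pneg _ _ (Pnat α e h m)
      rw [show ((-(m : ℤ) : ℤ) : K) * α = -((m : K) * α) by push_cast; ring,
        show (-(m : ℤ)) * e = -((m : ℤ) * e) by ring]
      exact this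
  have hX1 : HtLe (PowerSeries.X * (1 : PowerSeries K) ^ 2) 1 := by
    rw [one_pow, mul_one]
    exact (hHE K PowerSeries.X 1).2.1 (hHE K PowerSeries.X 1).2.2.2.2
  have Pβ : P β ε := by
    obtain ⟨g, u, hm, ht, -⟩ := hOp 1 1 y 1 1 ((h1 K A B 1 y 1 y).1 hY) ((hTP K A B y 1 y 1 hY).2.1) hX1
    rw [mul_one] at hm ht
    exact ⟨g, u, hm, ht⟩
  have Pab : ∀ a b : ℤ, P ((a : K) + (b : K) * β) (a + ε * b) := by
    intro a b
    have := Padd _ _ _ _ (Pint 1 1 P1 a) (Pint β ε Pβ b)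
    rw [mul_one, mul_one] at this
    rw [mul_comm ε b]
    exact this
  -- heights
  have hex : ∀ a b : ℤ, ∃ d : ℕ, ∃ g u : PowerSeries K, Ml A B y ((a : K) + (b : K) * β) g u ∧
      Ty y (a + ε * b) g u ∧ Ht (PowerSeries.X * g ^ 2) d := by
    intro a b
    obtain ⟨g, u, hm, ht⟩ := Pab a b
    obtain ⟨d, hd⟩ := (hHE K (PowerSeries.X * g ^ 2) 0).2.2.1 ((hTP K A B y g u _ hY).1 ht)
    exact ⟨d, g, u, hm, ht, hd⟩
  choose H hH using hex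
  have hHt : ∀ (a b : ℤ) (α : K) (g u : PowerSeries K), α = (a : K) + (b : K) * β → Ml A B y α g u →
      Ht (PowerSeries.X * g ^ 2) (H a b) := by
    intro a b α g u hα hm
    obtain ⟨g', u', hm', ht', hh'⟩ := hH a b
    rw [hα] at hm
    have := (hU K A B _ y g u g' u' hY.one hm hm').1
    rw [this]
    exact hh'
  have hpar : ∀ a b c d : ℤ, (H (a + c) (b + d) : ℤ) + (H (a - c) (b - d) : ℤ)
      = 2 * (H a b : ℤ) + 2 * (H c d : ℤ) := by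
    intro a b c d
    obtain ⟨g₁, u₁, hm₁, -, hh₁⟩ := hH a b
    obtain ⟨g₂, u₂, hm₂, -, hh₂⟩ := hH c d
    obtain ⟨g₃, u₃, hm₃, -, hh₃⟩ := hH (a + c) (b + d)
    obtain ⟨g₄, u₄, hm₄, -, hh₄⟩ := hH (a - c) (b - d)
    have e3 : (((a + c : ℤ) : K) + ((b + d : ℤ) : K) * β)
        = ((a : K) + (b : K) * β) + ((c : K) + (d : K) * β) := by push_cast; ring
    have e4 : (((a - c : ℤ) : K) + ((b - d : ℤ) : K) * β)
        = ((a : K) + (b : K) * β) - ((c : K) + (d : K) * β) := by push_cast; ring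
    rw [e3] at hm₃
    rw [e4] at hm₄
    obtain ⟨i1, i2⟩ := hP K A B _ _ y g₁ u₁ g₂ u₂ g₃ u₃ g₄ u₄ hY.one hm₁ hm₂ hm₃ hm₄
    have h0 : PowerSeries.constantCoeff (PowerSeries.X * g₁ ^ 2) = 0 := by
      rw [map_mul, PowerSeries.constantCoeff_X, zero_mul]
    have := hPL K A B _ _ _ _ _ _ _ _ hB hAB hh₁ hh₂ hh₃ hh₄ h0 i1 i2
    have h2 : ((H (a + c) (b + d) + H (a - c) (b - d) : ℕ) : ℤ) = ((2 * (H a b + H c d) : ℕ) : ℤ) := by
      rw [this]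
    push_cast at h2
    linarith
  have h10 : (H 1 0 : ℤ) = 1 := by
    have h := hHt 1 0 1 1 y (by simp) ((h1 K A B 1 y 1 y).1 hY)
    rw [one_pow, mul_one] at h
    have := hHU K _ _ _ h (hHE K PowerSeries.X 1).2.2.2.2
    rw [this]; rfl
  have hN' : ∀ a b : ℤ, (H (-(N : ℤ) * b) a : ℤ) ≤ (N : ℤ) * (H a b : ℤ) := by
    intro a b
    obtain ⟨g, u, hm, ht, hh⟩ := hH a b
    obtain ⟨g', u', hm', -, hh'⟩ := hOp _ g u _ _ hm ht ((hHE K _ _).2.1 hh)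
    have e1 : β * ((a : K) + (b : K) * β) = (((-(N : ℤ) * b : ℤ)) : K) + (a : K) * β := by
      have : β * β = -(N : K) := by rw [← hβ]; ring
      push_cast
      calc β * ((a : K) + (b : K) * β) = (b : K) * (β * β) + (a : K) * β := by ring
        _ = _ := by rw [this]; ring
    have hht := hHt (-(N : ℤ) * b) a _ g' u' e1 hm'
    obtain ⟨d', hd', hd''⟩ := (hHE K _ _).1 hh'
    have := hHU K _ _ _ hht hd''
    rw [this]
    exact_mod_cast hd'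
  have hfin := hQ1 (fun a b => (H a b : ℤ)) (N : ℤ) (by exact_mod_cast hN) hpar h10 hN'
  intro a b
  obtain ⟨g, u, hm, ht, hh⟩ := hH a b
  refine ⟨g, u, hm, ht, ?_⟩
  have h : (H a b : ℤ) = a ^ 2 + (N : ℤ) * b ^ 2 := hfin a b
  rw [← h, Int.toNat_natCast]
  exact hh

end Pool.Agent.helper60.DB
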